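import Mathlib

set_option autoImplicit false

namespace Pool.Agent.Results.MP_8f7167_an.NotGamma

open Filter Topology Finset

section Defs
variable {𝕜 : Type} [RCLike 𝕜] {E : Type} [NormedAddCommGroup E] [NormedSpace 𝕜 E]

/-- Consistent matrix (indices start at `0`). -/
def Consistent (T : ℕ → ℕ → 𝕜) : Prop :=
  (∃ C : ℝ, ∀ n, Summable (fun m => ‖T n m‖) ∧ ∑' m, ‖T n m‖ ≤ C) ∧
    (∀ m, Tendsto (fun n => T n m) atTop (𝓝 0)) ∧ Tendsto (fun n => ∑' m, T n m) atTop (𝓝 1)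

/-- `σ_{n m} = ∑_{j < m} t_{n j} ∑_{i ≤ j} α_i x_i`. -/
def sigma (T : ℕ → ℕ → 𝕜) (x : ℕ → E) (α : ℕ → 𝕜) (n m : ℕ) : E :=
  ∑ j ∈ range m, T n j • ∑ i ∈ range (j + 1), α i • x i

/-- The series `∑ α_i x_i` is `T`-summable to `v`. -/
def TSum (T : ℕ → ℕ → 𝕜) (x : ℕ → E) (α : ℕ → 𝕜) (v : E) : Prop :=
  ∃ σ : ℕ → E, (∀ n, Tendsto (sigma T x α n) atTop (𝓝 (σ n))) ∧ Tendsto σ atTop (𝓝 v)

/-- `T`-basis. -/
def IsTBasis (T : ℕ → ℕ → 𝕜) (x : ℕ → E) : Prop := ∀ v : E, ∃! α : ℕ → 𝕜, TSum T x α v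

/-- M-basis with associated functionals `f`. -/
def IsMBasis (x : ℕ → E) (f : ℕ → E →L[𝕜] 𝕜) : Prop :=
  (∀ i j, f i (x j) = if i = j then 1 else 0) ∧ Dense (Submodule.span 𝕜 (Set.range x) : Set E) ∧
    ∀ v : E, (∀ i, f i v = 0) → v = 0

/-- `γ`-basis with respect to the matrix `l`. -/
def IsGammaBasis (l : ℕ → ℕ → 𝕜) (x : ℕ → E) (f : ℕ → E →L[𝕜] 𝕜) : Prop :=
  IsMBasis x f ∧ ∀ v : E, ∃ τ : ℕ → E,
    (∀ n, Tendsto (fun m => ∑ i ∈ range m, (l n i * f i v) • x i) atTop (𝓝 (τ n))) ∧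
      Tendsto τ atTop (𝓝 v)

/-- The tail-sum matrix `λ_{n m} = ∑_{j ≥ m} t_{n j}`. -/
noncomputable def tail (T : ℕ → ℕ → 𝕜) (n m : ℕ) : 𝕜 := ∑' j, T n (j + m)

/-- `E` has a `T`-basis, `T` consistent, that is no `γ`-basis for the tail-sum matrix. -/
def HasCounterexample (𝕜 : Type) [RCLike 𝕜] (E : Type) [NormedAddCommGroup E] [NormedSpace 𝕜 E] :
    Prop :=
  ∃ (T : ℕ → ℕ → 𝕜) (x : ℕ → E) (f : ℕ → E →L[𝕜] 𝕜), Consistent T ∧ IsTBasis T x ∧ IsMBasis x f ∧
    (∀ v, TSum T x (fun i => f i v) v) ∧ ¬ IsGammaBasis (tail T) x f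
end Defs

section
variable (𝕜 : Type) [RCLike 𝕜]

/-- `t_{n, 2k+1} = 2^(-(k-n+1))` for `k ≥ n`, all other entries `0`. -/
noncomputable def tr (n j : ℕ) : ℝ := if j % 2 = 1 ∧ n ≤ j / 2 then (1 / 2) ^ (j / 2 - n + 1) else 0

/-- unit vectors -/
noncomputable def e (i : ℕ) : lp (fun _ : ℕ => 𝕜) 2 := lp.single 2 i 1

/-- `x_{2k} = e_{2k}`, `x_{2k+1} = e_{2k+1} + 4^k e_{2k}`. -/
noncomputable def xx (i : ℕ) : lp (fun _ : ℕ => 𝕜) 2 :=
  if i % 2 = 1 then e 𝕜 i + (4 : 𝕜) ^ (i / 2) • e 𝕜 (i - 1) else e 𝕜 i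

/-- coordinate functionals -/
noncomputable def co (i : ℕ) : lp (fun _ : ℕ => 𝕜) 2 →L[𝕜] 𝕜 := innerSL 𝕜 (e 𝕜 i)

/-- biorthogonal functionals -/
noncomputable def ff (i : ℕ) : lp (fun _ : ℕ => 𝕜) 2 →L[𝕜] 𝕜 :=
  if i % 2 = 1 then co 𝕜 i else co 𝕜 i - (4 : 𝕜) ^ (i / 2) • co 𝕜 (i + 1)

theorem co_apply (i : ℕ) (v : lp (fun _ : ℕ => 𝕜) 2) : co 𝕜 i v = v i := by
  simp [co, e, lp.inner_single_left]

theorem co_e (i j : ℕ) : co 𝕜 i (e 𝕜 j) = if i = j then 1 else 0 := by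
  rw [co_apply, e, lp.single_apply, Pi.single_apply]

theorem bio (i j : ℕ) : ff 𝕜 i (xx 𝕜 j) = if i = j then 1 else 0 := by
  unfold ff xx
  by_cases hi : i % 2 = 1 <;> by_cases hj : j % 2 = 1 <;>
    simp only [hi, hj, if_true, if_false, map_add, map_smul, sub_apply, smul_apply, co_e, smul_eq_mul]
  · rw [if_neg (show ¬ i = j - 1 by omega)]; simp
  · rw [if_neg (show ¬ i = j by omega), if_neg (show ¬ i + 1 = j - 1 by omega)]
    by_cases h : i + 1 = j
    · rw [if_pos h, if_pos (show i = j - 1 by omega), show j / 2 = i / 2 by omega]; ring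
    · rw [if_neg h, if_neg (show ¬ i = j - 1 by omega)]; ring
  · rw [if_neg (show ¬ i + 1 = j by omega)]; simp

theorem part (v : lp (fun _ : ℕ => 𝕜) 2) (k : ℕ) :
    ∑ i ∈ range (2 * k), ff 𝕜 i v • xx 𝕜 i = ∑ i ∈ range (2 * k), lp.single 2 i (v i) := by
  induction k with
  | zero => rfl
  | succ k ih =>
    have h : ∀ i, lp.single 2 i (v i) = v i • e 𝕜 i := fun i => by
      rw [e, ← lp.single_smul, smul_eq_mul, mul_one]
    rw [show 2 * (k + 1) = 2 * k + 1 + 1 by ring, sum_range_succ, sum_range_succ, sum_range_succ,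
      sum_range_succ, ih, h, h]
    unfold ff xx
    rw [if_neg (by omega), if_neg (by omega), if_pos (by omega), if_pos (by omega),
      show (2 * k + 1) / 2 = k by omega, show 2 * k / 2 = k by omega, Nat.add_sub_cancel]
    simp only [sub_apply, smul_apply, co_apply, smul_eq_mul]
    module

theorem part_lim (v : lp (fun _ : ℕ => 𝕜) 2) :
    Tendsto (fun k => ∑ i ∈ range (2 * k), ff 𝕜 i v • xx 𝕜 i) atTop (𝓝 v) := by
  simp only [part]
  exact (lp.hasSum_single (by simp) v).tendsto_sum_nat.comp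
    (tendsto_id.const_mul_atTop' (by norm_num))

theorem tr_nonneg (n j : ℕ) : 0 ≤ tr n j := by unfold tr; split_ifs <;> positivity

theorem hs_tr {F : Type} [NormedAddCommGroup F] [NormedSpace ℝ F] (n : ℕ) (g : ℕ → F) (a : F)
    (h : HasSum (fun k => (1 / 2 : ℝ) ^ (k + 1) • g (2 * (k + n) + 1)) a) :
    HasSum (fun j => tr n j • g j) a := by
  have hinj : Function.Injective fun k => 2 * (k + n) + 1 := fun a b h => by simp only at h; omega
  rw [← hinj.hasSum_iff]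
  · have e : ((fun j => tr n j • g j) ∘ fun k => 2 * (k + n) + 1) =
        fun k => (1 / 2 : ℝ) ^ (k + 1) • g (2 * (k + n) + 1) := by
      funext k
      simp only [Function.comp, tr]
      rw [if_pos (by omega), show (2 * (k + n) + 1) / 2 - n = k by omega]
    rwa [e]
  · intro j hj
    rw [tr, if_neg, zero_smul]
    exact fun h => hj ⟨j / 2 - n, by simp only; omega⟩

theorem hs_half : HasSum (fun k : ℕ => (1 / 2 : ℝ) ^ (k + 1)) 1 := by
  have := hasSum_geometric_two.mul_left (1 / 2)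
  simpa [pow_succ'] using this

theorem hs_one (n : ℕ) : HasSum (tr n) 1 := by
  simpa using hs_tr n (fun _ => (1 : ℝ)) 1 (by simpa using hs_half)

theorem tr_lim (m : ℕ) : ∀ᶠ n in atTop, ∀ j < m, tr n j = 0 := by
  filter_upwards [eventually_gt_atTop m] with n hn j hj
  rw [tr, if_neg (by omega)]
end

theorem result (𝕜 : Type) [RCLike 𝕜] : HasCounterexample 𝕜 (lp (fun _ : ℕ => 𝕜) 2) := by
  have hT : ∀ n, HasSum (fun j => (tr n j : 𝕜)) 1 := fun n => by
    simpa using (RCLike.hasSum_ofReal (𝕜 := 𝕜)).mpr (hs_one n)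
  have hts : ∀ v, TSum (fun n j => (tr n j : 𝕜)) (xx 𝕜) (fun i => ff 𝕜 i v) v := fun v => by
    set S : ℕ → lp (fun _ : ℕ => 𝕜) 2 := fun k => ∑ i ∈ range (2 * k), ff 𝕜 i v • xx 𝕜 i with hS
    have hlim : Tendsto S atTop (𝓝 v) := part_lim 𝕜 v
    obtain ⟨C, hC⟩ := hlim.norm.bddAbove_range
    have hb : ∀ n k, ‖(1 / 2 : ℝ) ^ (k + 1) • S (k + n + 1)‖ ≤ (1 / 2 : ℝ) ^ (k + 1) * C := fun n k => by
      rw [norm_smul, Real.norm_of_nonneg (by positivity)]
      exact mul_le_mul_of_nonneg_left (hC ⟨_, rfl⟩) (by positivity)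
    refine ⟨fun n => ∑' k, (1 / 2 : ℝ) ^ (k + 1) • S (k + n + 1), fun n => ?_, ?_⟩
    · have := (hs_tr n (fun j => ∑ i ∈ range (j + 1), ff 𝕜 i v • xx 𝕜 i) _
        (Summable.of_norm_bounded (hs_half.summable.mul_right C) (hb n)).hasSum).tendsto_sum_nat
      refine this.congr fun m => ?_
      simp only [sigma, RCLike.real_smul_eq_coe_smul (K := 𝕜)]
    · have := tendsto_tsum_of_dominated_convergence (𝓕 := atTop)
        (f := fun n k => (1 / 2 : ℝ) ^ (k + 1) • S (k + n + 1)) (g := fun k => (1 / 2 : ℝ) ^ (k + 1) • v)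
        (hs_half.summable.mul_right C) (fun k => (hlim.comp (tendsto_atTop_mono
          (fun n => by simp only [id]; omega) tendsto_id)).const_smul _) (.of_forall hb)
      rwa [(hs_half.smul_const v).tsum_eq, one_smul] at this
  refine ⟨fun n j => (tr n j : 𝕜), xx 𝕜, ff 𝕜, ⟨⟨1, fun n => ?_⟩, fun m => ?_, ?_⟩,
    fun v => ⟨_, hts v, fun α ⟨σ, h1, h2⟩ => funext fun i => ?_⟩, ⟨bio 𝕜, fun v => ?_, fun v hv => ?_⟩,
    hts, fun ⟨_, h⟩ => ?_⟩
  · simp only [RCLike.norm_ofReal, abs_of_nonneg (tr_nonneg _ _)]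
    exact ⟨(hs_one n).summable, (hs_one n).tsum_eq.le⟩
  · refine tendsto_const_nhds.congr' ((tr_lim (m + 1)).mono fun n hn => ?_)
    simp [hn m m.lt_succ_self]
  · simp only [(hT _).tsum_eq]; exact tendsto_const_nhds
  · have h3 := ((ff 𝕜 i).continuous.tendsto _).comp h2
    refine tendsto_nhds_unique_of_eventuallyEq tendsto_const_nhds h3 ((tr_lim i).mono fun n hn => ?_)
    have h4 := ((ff 𝕜 i).continuous.tendsto _).comp (h1 n)
    have h5 := ((hT n).mul_right (α i)).tendsto_sum_nat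
    rw [one_mul] at h5
    refine tendsto_nhds_unique h5 (h4.congr fun m => ?_)
    simp only [Function.comp, sigma, map_sum, map_smul, bio, smul_eq_mul, mul_ite, mul_one, mul_zero,
      sum_ite_eq, mem_range]
    refine sum_congr rfl fun j _ => ?_
    split_ifs with h
    · rfl
    · simp [hn j (by omega)]
  · exact mem_closure_of_tendsto (part_lim 𝕜 v) (.of_forall fun k => Submodule.sum_mem _ fun i _ =>
      Submodule.smul_mem _ _ (Submodule.subset_span ⟨i, rfl⟩))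
  · have := part_lim 𝕜 v
    simp only [hv, zero_smul, sum_const_zero] at this
    exact tendsto_nhds_unique this tendsto_const_nhds
  · let v : lp (fun _ : ℕ => 𝕜) 2 := ⟨fun i => if i % 2 = 1 then ((1 / 2 : ℝ) ^ (i / 2) : ℝ) else 0,
      memℓp_gen (by
        refine (summable_geometric_two.mul_left 2).of_nonneg_of_le (fun _ => by positivity) fun i => ?_
        rw [ENNReal.toReal_ofNat, Real.rpow_two]
        split_ifs with hi
        · rw [RCLike.norm_ofReal, sq_abs, ← pow_mul]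
          have : i = i / 2 * 2 + 1 := by omega
          nth_rewrite 2 [this]
          rw [pow_succ]; linarith
        · simp)⟩
    obtain ⟨τ, h1, -⟩ := h v
    have h2 := ((h1 0).comp (tendsto_add_atTop_nat 1)).sub (h1 0)
    simp only [Function.comp, sum_range_succ, add_sub_cancel_left, sub_self] at h2
    have h3 := (h2.comp (tendsto_id.const_mul_atTop' (by norm_num : 0 < 2))).norm
    rw [norm_zero] at h3
    obtain ⟨k, hk⟩ := (h3.eventually (gt_mem_nhds (by norm_num : (0 : ℝ) < 1 / 2))).exists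
    have hs := (summable_nat_add_iff (2 * k)).mpr (hs_one 0).summable
    have h4 : tail (fun n j => (tr n j : 𝕜)) 0 (2 * k) = (∑' j, tr 0 (j + 2 * k) : ℝ) := by
      rw [tail, RCLike.ofReal_tsum]
    have h5 : (1 / 2 : ℝ) ^ (k + 1) ≤ ∑' j, tr 0 (j + 2 * k) := by
      refine le_trans ?_ (hs.le_tsum 1 fun _ _ => tr_nonneg _ _)
      rw [tr, if_pos (by omega), show (1 + 2 * k) / 2 - 0 = k by omega]
    have h6 : ff 𝕜 (2 * k) v = -(2 : 𝕜) ^ k := by
      rw [ff, if_neg (by omega), sub_apply, smul_apply, co_apply, co_apply]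
      simp only [v]
      rw [if_neg (by omega), if_pos (by omega), show (2 * k + 1) / 2 = k by omega,
        show 2 * k / 2 = k by omega]
      push_cast
      rw [smul_eq_mul, ← mul_pow]; norm_num
    have h7 : ‖xx 𝕜 (2 * k)‖ = 1 := by
      rw [xx, if_neg (by omega), e, lp.norm_single (by simp), norm_one]
    simp only [Function.comp, id] at hk
    rw [norm_smul, norm_mul, h4, h6, h7, RCLike.norm_ofReal, norm_neg, norm_pow, RCLike.norm_two] at hk
    have h8 : (1 / 2 : ℝ) ^ (k + 1) * 2 ^ k = 1 / 2 := by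
      rw [pow_succ, mul_right_comm, ← mul_pow]; norm_num
    have h9 := mul_le_mul_of_nonneg_right (h5.trans (le_abs_self _)) (by positivity : (0 : ℝ) ≤ 2 ^ k)
    linarith

end Pool.Agent.Results.MP_8f7167_an.NotGamma
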